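import Pool.Agent.Y503.HC.Final

/-! MP_590cbb_gt: the homogeneity conjecture fails for weakly symmetric spaces. -/

set_option autoImplicit false

open scoped Manifold ContDiff
open Manifold

namespace Pool.Agent.Results.MP_590cbb_gt.WeaklySymmetricFails

open Pool.Agent.Y503.HC

/-- There are a compact simply connected weakly symmetric Riemannian manifold `(M, g)` and a finite
group `Γ` of isometries of constant displacement acting freely on `M` such that the Riemannian
quotient `Γ\(M, g)` is not homogeneous. -/
theorem result :
    ∃ (E : Type) (_ : NormedAddCommGroup E) (_ : NormedSpace ℝ E) (_ : FiniteDimensional ℝ E)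
      (H : Type) (_ : TopologicalSpace H) (I : ModelWithCorners ℝ E H) (_ : I.Boundaryless)
      (M : Type) (_ : TopologicalSpace M) (_ : ChartedSpace H M) (_ : IsManifold I ∞ M)
      (_ : T2Space M) (_ : CompactSpace M) (_ : SimplyConnectedSpace M) (g : Metric I M)
      (N : Type) (_ : TopologicalSpace N) (_ : ChartedSpace H N) (_ : IsManifold I ∞ N)
      (_ : T2Space N) (g' : Metric I N) (p : M → N)
      (Γ : Type) (_ : Group Γ) (_ : Finite Γ) (_ : MulAction Γ M),
      IsWeaklySymmetric g ∧ IsQuotient Γ g g' p ∧
        (∀ γ : Γ, ∃ d, ∀ x : M, dist g x (γ • x) = d) ∧ ¬ IsHomogeneous g' := by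
  letI := actGam
  obtain ⟨N, i1, i2, i3, i4, g', p, h⟩ :=
    exists_quotient gM Gam Gam_isometry Gam_free
  exact ⟨E5, inferInstance, inferInstance, inferInstance,
    ModelProd (EuclideanSpace ℝ (Fin 3)) (EuclideanSpace ℝ (Fin 2)), inferInstance, II,
    inferInstance, MM, inferInstance, inferInstance, inferInstance, inferInstance, inferInstance,
    simplyConnected_MM, gM, N, i1, i2, i3, i4, g', p, Gam, inferInstance, inferInstance, actGam,
    weaklySymmetric, h, Gam_displacement, not_homogeneous g' p h⟩

end Pool.Agent.Results.MP_590cbb_gt.WeaklySymmetricFails
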